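import Pool.Agent.Helper49.KR.St

/-!
# Project KR, module ADM: block elements of admissible families have continuous coefficients
-/

set_option autoImplicit false

namespace Pool.Agent.Helper12.KR

open Finset Filter Topology Module
open Pool.Agent.Helper49.KX Pool.Agent.Helper49.KR

/-! ### finite sums with continuous coefficients -/

/-- the finite sum comes from continuous coefficients -/
def Rg (a : FS (Dx X0)) : Prop := ∃ g : FS X0, embF g = a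

theorem emb_add {X : Type} [TopologicalSpace X] (f g : C(X, ℂ)) : emb (f + g) = emb f + emb g := by
  ext x; rfl

theorem embF_add {X : Type} [TopologicalSpace X] (g g' : FS X) :
    embF (g + g') = embF g + embF g' := by
  unfold embF
  exact Finsupp.mapRange_add emb_add g g'

theorem embF_zero {X : Type} [TopologicalSpace X] : embF (0 : FS X) = 0 := by
  unfold embF
  exact Finsupp.mapRange_zero

theorem embF_single {X : Type} [TopologicalSpace X] (n : ℤ) (f : C(X, ℂ)) :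
    embF (Finsupp.single n f) = Finsupp.single n (emb f) := by
  unfold embF
  exact Finsupp.mapRange_single

theorem Rg.add {a b : FS (Dx X0)} (ha : Rg a) (hb : Rg b) : Rg (a + b) := by
  obtain ⟨g, rfl⟩ := ha
  obtain ⟨g', rfl⟩ := hb
  exact ⟨g + g', embF_add g g'⟩

theorem Rg.sum {ι : Type} (s : Finset ι) (f : ι → FS (Dx X0)) (h : ∀ i ∈ s, Rg (f i)) :
    Rg (∑ i ∈ s, f i) := by
  classical
  induction s using Finset.induction_on with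
  | empty => exact ⟨0, by simpa using embF_zero⟩
  | insert i s hi ih =>
    rw [Finset.sum_insert hi]
    exact (h i (Finset.mem_insert_self i s)).add
      (ih fun j hj => h j (Finset.mem_insert_of_mem hj))

theorem hD_zpow {X : Type} [TopologicalSpace X] (h : X ≃ₜ X) (n : ℤ) (x : X) :
    (hD h ^ n : Dx X ≃ₜ Dx X) x = (h ^ n : X ≃ₜ X) x := by
  induction n generalizing x with
  | zero => rfl
  | succ n ih =>
    rw [zpow_add_one, zpow_add_one]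
    exact ih (h x)
  | pred n ih =>
    rw [zpow_sub_one, zpow_sub_one]
    exact ih (h.symm x)

theorem cmp_emb {X : Type} [TopologicalSpace X] (h : X ≃ₜ X) (n : ℤ) (f : C(X, ℂ)) :
    cmp (hD h) n (emb f) = emb (cmp h n f) := by
  ext x
  show f ((hD h ^ n : Dx X ≃ₜ Dx X) x) = f ((h ^ n : X ≃ₜ X) x)
  rw [hD_zpow h n x]

/-! ### the terms -/

/-- the function `φ (rp x)` -/
noncomputable def hat (δ1 : ℝ) (φ : ℝ → ℂ) : C(Dx X0, ℂ) :=
  ⟨fun x => φ (rp δ1 x), continuous_of_discreteTopology⟩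

/-- the term of degree `n` and level `i` of a function -/
noncomputable def TT (θ δ1 : ℝ) (n : ℤ) (i : ℕ) (φ : ℝ → ℂ) : FS (Dx X0) :=
  Finsupp.single n (cmp (hD (rot θ)) (-(i : ℤ)) (hat δ1 φ))

theorem TT_add (θ δ1 : ℝ) (n : ℤ) (i : ℕ) (φ ψ : ℝ → ℂ) :
    TT θ δ1 n i (fun s => φ s + ψ s) = TT θ δ1 n i φ + TT θ δ1 n i ψ := by
  unfold TT
  rw [← Finsupp.single_add]
  congr 1

theorem TT_zero (θ δ1 : ℝ) (n : ℤ) (i : ℕ) : TT θ δ1 n i (fun _ => 0) = 0 := by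
  unfold TT
  have : cmp (hD (rot θ)) (-(i : ℤ)) (hat δ1 fun _ => 0) = 0 := by ext x; rfl
  rw [this, Finsupp.single_zero]

theorem Rg_TT (θ δ1 : ℝ) (n : ℤ) (i : ℕ) (φ : ℝ → ℂ) (hφ : Continuous φ) (h1 : φ (-δ1) = 0)
    (h2 : φ (1 - δ1) = 0) : Rg (TT θ δ1 n i φ) := by
  have hc : Continuous (AddCircle.liftIco (1 : ℝ) (-δ1) φ) := by
    refine AddCircle.liftIco_continuous ?_ hφ.continuousOn
    rw [h1, show -δ1 + 1 = 1 - δ1 by ring, h2]
  refine ⟨Finsupp.single n (cmp (rot θ) (-(i : ℤ)) ⟨AddCircle.liftIco (1 : ℝ) (-δ1) φ, hc⟩), ?_⟩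
  rw [embF_single, ← cmp_emb]
  rfl

theorem rp_mem (δ1 : ℝ) (x : X0) : -δ1 ≤ rp δ1 x ∧ rp δ1 x < 1 - δ1 := by
  have h := (AddCircle.equivIco (1 : ℝ) (-δ1) x).2
  refine ⟨h.1, ?_⟩
  have h2 := h.2
  unfold rp
  linarith

theorem rp_coe (δ1 : ℝ) (x : X0) : ((rp δ1 x : ℝ) : X0) = x := by
  unfold rp
  exact AddCircle.coe_equivIco

theorem rp_eq (δ1 c : ℝ) (h1 : -δ1 ≤ c) (h2 : c < 1 - δ1) : rp δ1 ((c : ℝ) : X0) = c := by
  unfold rp
  rw [AddCircle.equivIco_coe_eq (p := (1 : ℝ)) (a := -δ1) (x := c) ⟨h1, by linarith⟩]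

theorem one_coe : ((1 : ℝ) : X0) = 0 := AddCircle.coe_period (1 : ℝ)

theorem int_coe (n : ℤ) : ((n : ℝ) : X0) = 0 := by
  rw [AddCircle.coe_eq_zero_iff]
  exact ⟨n, by simp⟩

theorem TT_congr (θ δ1 : ℝ) (n : ℤ) (i j : ℕ) (φ ψ : ℝ → ℂ)
    (h : ∀ x : X0, φ (rp δ1 (x + ((((-(i : ℤ) : ℤ) : ℝ) * θ : ℝ) : X0))) =
      ψ (rp δ1 (x + ((((-(j : ℤ) : ℤ) : ℝ) * θ : ℝ) : X0)))) :
    TT θ δ1 n i φ = TT θ δ1 n j ψ := by
  unfold TT
  congr 1
  ext x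
  show φ (rp δ1 ((hD (rot θ) ^ (-(i : ℤ)) : Dx X0 ≃ₜ Dx X0) x)) =
    ψ (rp δ1 ((hD (rot θ) ^ (-(j : ℤ)) : Dx X0 ≃ₜ Dx X0) x))
  rw [hD_zpow, hD_zpow, rot_zpow, rot_zpow]
  exact h x

/-- shift by `q1` levels -/
theorem TT_shift1 (θ δ1 : ℝ) (n : ℤ) (i q1 : ℕ) (m : ℤ) (he : (q1 : ℝ) * θ = -δ1 + m)
    (hδ : 0 < δ1) (hδ' : δ1 < 1) (φ ψ : ℝ → ℂ)
    (h1 : ∀ z, -δ1 ≤ z → z + δ1 < 1 - δ1 → φ (z + δ1) = ψ z)
    (h2 : ∀ z, z < 1 - δ1 → 1 - δ1 ≤ z + δ1 → φ (z + δ1 - 1) = ψ z) :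
    TT θ δ1 n (q1 + i) φ = TT θ δ1 n i ψ := by
  apply TT_congr
  intro x
  set y : X0 := x + ((((-(i : ℤ) : ℤ) : ℝ) * θ : ℝ) : X0) with hy
  have e : x + ((((-((q1 + i : ℕ) : ℤ) : ℤ) : ℝ) * θ : ℝ) : X0) = y + ((δ1 : ℝ) : X0) := by
    have e1 : (((-((q1 + i : ℕ) : ℤ) : ℤ) : ℝ) * θ : ℝ) =
        (((-(i : ℤ) : ℤ) : ℝ) * θ) + (δ1 + (((-m : ℤ)) : ℝ)) := by
      push_cast
      linear_combination -he
    rw [e1, AddCircle.coe_add, AddCircle.coe_add, int_coe, add_zero, hy, add_assoc]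
  rw [e]
  have hz := rp_mem δ1 y
  have hzc := rp_coe δ1 y
  set z : ℝ := rp δ1 y with hzd
  rw [← hzc, ← AddCircle.coe_add]
  by_cases hlt : z + δ1 < 1 - δ1
  · rw [rp_eq δ1 (z + δ1) (by linarith [hz.1]) hlt]
    exact h1 z hz.1 hlt
  · have e2 : (((z + δ1 : ℝ)) : X0) = (((z + δ1 - 1 : ℝ)) : X0) := by
      rw [AddCircle.coe_sub, one_coe, sub_zero]
    have hlt' := not_lt.1 hlt
    have hz2 := hz.2
    rw [e2, rp_eq δ1 (z + δ1 - 1) (by linarith) (by linarith)]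
    exact h2 z hz.2 (not_lt.1 hlt)

/-- shift by `q2` levels -/
theorem TT_shift2 (θ δ1 δ2 : ℝ) (n : ℤ) (i q2 : ℕ) (m : ℤ) (he : (q2 : ℝ) * θ = δ2 + m)
    (hδ1 : 0 < δ1) (hδ : 0 < δ2) (hlt1 : δ1 + δ2 < 1) (φ ψ : ℝ → ℂ)
    (h1 : ∀ z, z < 1 - δ1 → -δ1 ≤ z - δ2 → φ (z - δ2) = ψ z)
    (h2 : ∀ z, -δ1 ≤ z → z - δ2 < -δ1 → φ (z - δ2 + 1) = ψ z) :
    TT θ δ1 n (q2 + i) φ = TT θ δ1 n i ψ := by
  apply TT_congr
  intro x
  set y : X0 := x + ((((-(i : ℤ) : ℤ) : ℝ) * θ : ℝ) : X0) with hy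
  have e : x + ((((-((q2 + i : ℕ) : ℤ) : ℤ) : ℝ) * θ : ℝ) : X0) = y + ((-δ2 : ℝ) : X0) := by
    have e1 : (((-((q2 + i : ℕ) : ℤ) : ℤ) : ℝ) * θ : ℝ) =
        (((-(i : ℤ) : ℤ) : ℝ) * θ) + (-δ2 + (((-m : ℤ)) : ℝ)) := by
      push_cast
      linear_combination -he
    rw [e1, AddCircle.coe_add, AddCircle.coe_add, int_coe, add_zero, hy, add_assoc]
  rw [e]
  have hz := rp_mem δ1 y
  have hzc := rp_coe δ1 y
  set z : ℝ := rp δ1 y with hzd
  rw [← hzc, ← AddCircle.coe_add]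
  by_cases hge : -δ1 ≤ z - δ2
  · have e3 : z + -δ2 = z - δ2 := by ring
    rw [e3, rp_eq δ1 (z - δ2) hge (by linarith [hz.2])]
    exact h1 z hz.2 hge
  · have e2 : (((z + -δ2 : ℝ)) : X0) = (((z - δ2 + 1 : ℝ)) : X0) := by
      rw [AddCircle.coe_add (1 : ℝ) (z - δ2) 1, one_coe, add_zero, sub_eq_add_neg]
    have hge' := not_le.1 hge
    have hz1 := hz.1
    rw [e2, rp_eq δ1 (z - δ2 + 1) (by linarith) (by linarith)]
    exact h2 z hz.1 (not_le.1 hge)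

/-! ### block sums -/

/-- the sum of all terms of a matrix function with a scalar weight, shifted by `o` levels -/
noncomputable def BS (θ δ1 : ℝ) (o : ℕ) {r : ℕ} (w : ℝ → ℝ)
    (Φ : ℝ → Matrix (Fin r) (Fin r) ℂ) : FS (Dx X0) :=
  ∑ i : Fin r, ∑ k : Fin r, TT θ δ1 (((i : ℕ) : ℤ) - ((k : ℕ) : ℤ)) (o + (i : ℕ))
    (fun s => ((w s : ℝ) : ℂ) * Φ s i k)

theorem BS_add (θ δ1 : ℝ) (o : ℕ) {r : ℕ} (w w' : ℝ → ℝ)
    (Φ : ℝ → Matrix (Fin r) (Fin r) ℂ) :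
    BS θ δ1 o w Φ + BS θ δ1 o w' Φ = BS θ δ1 o (fun s => w s + w' s) Φ := by
  unfold BS
  rw [← Finset.sum_add_distrib]
  refine Finset.sum_congr rfl fun i _ => ?_
  rw [← Finset.sum_add_distrib]
  refine Finset.sum_congr rfl fun k _ => ?_
  rw [← TT_add]
  congr 1
  ext s
  push_cast
  ring

theorem BS_add3 (θ δ1 : ℝ) (o : ℕ) {r : ℕ} (w w1 w2 w3 : ℝ → ℝ)
    (Φ Φ1 Φ2 Φ3 : ℝ → Matrix (Fin r) (Fin r) ℂ)
    (h : ∀ s i k, ((w s : ℝ) : ℂ) * Φ s i k = ((w1 s : ℝ) : ℂ) * Φ1 s i k +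
      ((w2 s : ℝ) : ℂ) * Φ2 s i k + ((w3 s : ℝ) : ℂ) * Φ3 s i k) :
    BS θ δ1 o w Φ = BS θ δ1 o w1 Φ1 + BS θ δ1 o w2 Φ2 + BS θ δ1 o w3 Φ3 := by
  unfold BS
  rw [← Finset.sum_add_distrib, ← Finset.sum_add_distrib]
  refine Finset.sum_congr rfl fun i _ => ?_
  rw [← Finset.sum_add_distrib, ← Finset.sum_add_distrib]
  refine Finset.sum_congr rfl fun k _ => ?_
  rw [← TT_add, ← TT_add]
  congr 1
  ext s
  exact h s i k

theorem Rg_BS (θ δ1 : ℝ) (o : ℕ) {r : ℕ} (w : ℝ → ℝ) (Φ : ℝ → Matrix (Fin r) (Fin r) ℂ)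
    (hw : Continuous w) (hΦ : Continuous Φ) (h1 : w (-δ1) = 0) (h2 : w (1 - δ1) = 0) :
    Rg (BS θ δ1 o w Φ) := by
  refine Rg.sum _ _ fun i _ => Rg.sum _ _ fun k _ => Rg_TT _ _ _ _ _ ?_ ?_ ?_
  · exact (Complex.continuous_ofReal.comp hw).mul
      ((continuous_apply k).comp ((continuous_apply i).comp hΦ))
  · rw [h1]; simp
  · rw [h2]; simp

theorem bsm_cc {a b : ℕ} (P : Matrix (Fin a) (Fin a) ℂ) (Q : Matrix (Fin b) (Fin b) ℂ)
    (i k : Fin a) : bsm P Q (Fin.castAdd b i) (Fin.castAdd b k) = P i k := by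
  simp [bsm]

theorem bsm_cn {a b : ℕ} (P : Matrix (Fin a) (Fin a) ℂ) (Q : Matrix (Fin b) (Fin b) ℂ)
    (i : Fin a) (k : Fin b) : bsm P Q (Fin.castAdd b i) (Fin.natAdd a k) = 0 := by
  simp [bsm]

theorem bsm_nc {a b : ℕ} (P : Matrix (Fin a) (Fin a) ℂ) (Q : Matrix (Fin b) (Fin b) ℂ)
    (i : Fin b) (k : Fin a) : bsm P Q (Fin.natAdd a i) (Fin.castAdd b k) = 0 := by
  simp [bsm]

theorem bsm_nn {a b : ℕ} (P : Matrix (Fin a) (Fin a) ℂ) (Q : Matrix (Fin b) (Fin b) ℂ)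
    (i k : Fin b) : bsm P Q (Fin.natAdd a i) (Fin.natAdd a k) = Q i k := by
  simp [bsm]

theorem add_z1 (u v w : FS (Dx X0)) (h1 : u = w) (h2 : v = 0) : u + v = w := by
  subst h1 h2
  exact add_zero u

theorem add_z2 (u v w : FS (Dx X0)) (h1 : u = 0) (h2 : v = w) : u + v = w := by
  subst h1 h2
  exact zero_add v

theorem BS_bsm (θ δ1 : ℝ) {a b : ℕ} (w : ℝ → ℝ) (P : ℝ → Matrix (Fin a) (Fin a) ℂ)
    (Q : ℝ → Matrix (Fin b) (Fin b) ℂ) :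
    BS θ δ1 0 w (fun s => bsm (P s) (Q s)) = BS θ δ1 0 w P + BS θ δ1 a w Q := by
  unfold BS
  rw [Fin.sum_univ_add]
  congr 1
  · refine Finset.sum_congr rfl fun i _ => ?_
    rw [Fin.sum_univ_add]
    have : ∑ k : Fin b, TT θ δ1 ((((Fin.castAdd b i : Fin (a + b)) : ℕ) : ℤ) -
        (((Fin.natAdd a k : Fin (a + b)) : ℕ) : ℤ)) (0 + ((Fin.castAdd b i : Fin (a + b)) : ℕ))
        (fun s => ((w s : ℝ) : ℂ) * bsm (P s) (Q s) (Fin.castAdd b i) (Fin.natAdd a k)) = 0 := by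
      refine Finset.sum_eq_zero fun k _ => ?_
      simp only [bsm_cn, mul_zero]
      exact TT_zero _ _ _ _
    refine add_z1 _ _ _ ?_ this
    refine Finset.sum_congr rfl fun k _ => ?_
    simp only [bsm_cc, Fin.val_castAdd]
  · refine Finset.sum_congr rfl fun i _ => ?_
    rw [Fin.sum_univ_add]
    have : ∑ k : Fin a, TT θ δ1 ((((Fin.natAdd a i : Fin (a + b)) : ℕ) : ℤ) -
        (((Fin.castAdd b k : Fin (a + b)) : ℕ) : ℤ)) (0 + ((Fin.natAdd a i : Fin (a + b)) : ℕ))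
        (fun s => ((w s : ℝ) : ℂ) * bsm (P s) (Q s) (Fin.natAdd a i) (Fin.castAdd b k)) = 0 := by
      refine Finset.sum_eq_zero fun k _ => ?_
      simp only [bsm_nc, mul_zero]
      exact TT_zero _ _ _ _
    refine add_z2 _ _ _ this ?_
    refine Finset.sum_congr rfl fun k _ => ?_
    simp only [bsm_nn, Fin.val_natAdd, zero_add]
    congr 1
    push_cast
    ring

theorem BS_cast (θ δ1 : ℝ) (o : ℕ) {m n : ℕ} (h : m = n) (w : ℝ → ℝ)
    (Φ : ℝ → Matrix (Fin m) (Fin m) ℂ) :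
    BS θ δ1 o w (fun s => Matrix.reindex (finCongr h) (finCongr h) (Φ s)) = BS θ δ1 o w Φ := by
  subst h
  rfl

theorem BS_bsc (θ δ1 : ℝ) {a b : ℕ} (w : ℝ → ℝ) (P : ℝ → Matrix (Fin b) (Fin b) ℂ)
    (Q : ℝ → Matrix (Fin a) (Fin a) ℂ) :
    BS θ δ1 0 w (fun s => bsc (P s) (Q s)) = BS θ δ1 0 w P + BS θ δ1 b w Q := by
  rw [← BS_bsm]
  exact BS_cast θ δ1 0 (Nat.add_comm b a) w (fun s => bsm (P s) (Q s))

/-! ### the weights -/

/-- a ramp: `0` for `t ≤ ε/2`, `1` for `t ≥ ε` -/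
noncomputable def rmp (ε t : ℝ) : ℝ := max 0 (min 1 (2 * t / ε - 1))

theorem rmp_cont (ε : ℝ) : Continuous (rmp ε) := by
  unfold rmp
  fun_prop

theorem rmp_nonneg (ε t : ℝ) : 0 ≤ rmp ε t := le_max_left _ _

theorem rmp_le_one (ε t : ℝ) : rmp ε t ≤ 1 := max_le zero_le_one (min_le_left _ _)

theorem rmp_zero (ε t : ℝ) (hε : 0 < ε) (h : t ≤ ε / 2) : rmp ε t = 0 := by
  unfold rmp
  have : 2 * t / ε ≤ 1 := by
    rw [div_le_one hε]
    linarith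
  rw [max_eq_left]
  exact (min_le_right _ _).trans (by linarith)

theorem rmp_one (ε t : ℝ) (hε : 0 < ε) (h : ε ≤ t) : rmp ε t = 1 := by
  unfold rmp
  have : 2 ≤ 2 * t / ε := by
    rw [le_div_iff₀ hε]
    linarith
  rw [min_eq_left (by linarith), max_eq_right zero_le_one]

/-- the central weight -/
noncomputable def chi0 (ε s : ℝ) : ℝ := 1 - rmp ε |s|

open Classical in
/-- the indicator function of an interval -/
noncomputable def ic (a b s : ℝ) : ℝ := if s ∈ Set.Ico a b then 1 else 0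

/-- right weight -/
noncomputable def wp (ε s : ℝ) : ℝ := ic 0 ε s * rmp ε s

/-- left weight -/
noncomputable def wm' (ε s : ℝ) : ℝ := ic (-ε) 0 s * rmp ε (-s)

theorem ic_in (a b s : ℝ) (h1 : a ≤ s) (h2 : s < b) : ic a b s = 1 := if_pos ⟨h1, h2⟩

theorem ic_out (a b s : ℝ) (h : s < a ∨ b ≤ s) : ic a b s = 0 := by
  refine if_neg fun hs => ?_
  rcases h with h | h
  · exact absurd hs.1 (not_le.2 h)
  · exact absurd hs.2 (not_lt.2 h)

theorem A0_eq (ε δ2 s : ℝ) (hε : 0 < ε) (h : 4 * ε < δ2) :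
    ic ε (δ2 - ε) s + wp ε s + wm' ε (s - δ2) = min (rmp ε s) (rmp ε (δ2 - s)) := by
  unfold wp wm'
  have e : -(s - δ2) = δ2 - s := by ring
  rw [e]
  rcases lt_or_ge s 0 with h0 | h0
  · rw [ic_out ε _ s (Or.inl (by linarith)), ic_out 0 ε s (Or.inl h0),
      ic_out (-ε) 0 (s - δ2) (Or.inl (by linarith)), rmp_zero ε s hε (by linarith),
      min_eq_left (rmp_nonneg _ _)]
    ring
  rcases lt_or_ge s ε with h1 | h1
  · rw [ic_out ε _ s (Or.inl h1), ic_in 0 ε s h0 h1,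
      ic_out (-ε) 0 (s - δ2) (Or.inl (by linarith)), rmp_one ε (δ2 - s) hε (by linarith),
      min_eq_left (rmp_le_one _ _)]
    ring
  rw [rmp_one ε s hε h1, min_eq_right (rmp_le_one _ _), ic_out 0 ε s (Or.inr h1)]
  rcases lt_or_ge s (δ2 - ε) with h2 | h2
  · rw [ic_in ε _ s h1 h2, ic_out (-ε) 0 (s - δ2) (Or.inl (by linarith)),
      rmp_one ε (δ2 - s) hε (by linarith)]
    ring
  rw [ic_out ε _ s (Or.inr h2)]
  rcases lt_or_ge s δ2 with h3 | h3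
  · rw [ic_in (-ε) 0 (s - δ2) (by linarith) (by linarith)]
    ring
  · rw [ic_out (-ε) 0 (s - δ2) (Or.inr (by linarith)), rmp_zero ε (δ2 - s) hε (by linarith)]
    ring

theorem A1_eq (ε δ1 s : ℝ) (hε : 0 < ε) (h : 4 * ε < δ1) :
    ic (-δ1 + ε) (-ε) s + wm' ε s + wp ε (s + δ1) = min (rmp ε (-s)) (rmp ε (s + δ1)) := by
  unfold wp wm'
  rcases lt_or_ge s (-δ1) with h0 | h0
  · rw [ic_out (-δ1 + ε) _ s (Or.inl (by linarith)), ic_out (-ε) 0 s (Or.inl (by linarith)),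
      ic_out 0 ε (s + δ1) (Or.inl (by linarith)), rmp_zero ε (s + δ1) hε (by linarith),
      min_eq_right (rmp_nonneg _ _)]
    ring
  rcases lt_or_ge s (-δ1 + ε) with h1 | h1
  · rw [ic_out (-δ1 + ε) _ s (Or.inl h1), ic_out (-ε) 0 s (Or.inl (by linarith)),
      ic_in 0 ε (s + δ1) (by linarith) (by linarith), rmp_one ε (-s) hε (by linarith),
      min_eq_right (rmp_le_one _ _)]
    ring
  rw [rmp_one ε (s + δ1) hε (by linarith), min_eq_left (rmp_le_one _ _),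
    ic_out 0 ε (s + δ1) (Or.inr (by linarith))]
  rcases lt_or_ge s (-ε) with h2 | h2
  · rw [ic_in (-δ1 + ε) _ s h1 h2, ic_out (-ε) 0 s (Or.inl h2), rmp_one ε (-s) hε (by linarith)]
    ring
  rw [ic_out (-δ1 + ε) _ s (Or.inr h2)]
  rcases lt_or_ge s 0 with h3 | h3
  · rw [ic_in (-ε) 0 s h2 h3]
    ring
  · rw [ic_out (-ε) 0 s (Or.inr h3), rmp_zero ε (-s) hε (by linarith)]
    ring

/-- the decomposition of the middle tower -/
theorem mid (q1 q2 : ℕ) (δ1 δ2 ε : ℝ) (hε : 0 < ε) (M0 : ℝ → Matrix (Fin q1) (Fin q1) ℂ)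
    (M1 : ℝ → Matrix (Fin q2) (Fin q2) ℂ)
    (M2 : ℝ → Matrix (Fin (q1 + q2)) (Fin (q1 + q2)) ℂ) (hA : Adm q1 q2 δ1 δ2 ε M0 M1 M2) (s : ℝ)
    (i k : Fin (q1 + q2)) :
    ((ic (-ε) ε s : ℝ) : ℂ) * M2 s i k = ((chi0 ε s : ℝ) : ℂ) * M2 s i k +
      ((wp ε s : ℝ) : ℂ) * (bsm (M0 s) (M1 (s - δ1))) i k +
      ((wm' ε s : ℝ) : ℂ) * (bsc (M1 s) (M0 (s + δ2))) i k := by
  unfold chi0 wp wm'
  rcases lt_or_ge s (-ε) with h0 | h0
  · rw [ic_out (-ε) ε s (Or.inl h0), ic_out 0 ε s (Or.inl (by linarith)),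
      ic_out (-ε) 0 s (Or.inl h0), rmp_one ε |s| hε (by rw [abs_of_neg (by linarith)]; linarith)]
    simp
  rcases le_or_gt ε s with h1 | h1
  · rw [ic_out (-ε) ε s (Or.inr h1), ic_out 0 ε s (Or.inr h1),
      ic_out (-ε) 0 s (Or.inr (by linarith)),
      rmp_one ε |s| hε (by rw [abs_of_nonneg (by linarith)]; linarith)]
    simp
  rw [ic_in (-ε) ε s h0 h1]
  rcases lt_or_ge s 0 with h2 | h2
  · rw [ic_out 0 ε s (Or.inl h2), ic_in (-ε) 0 s h0 h2, abs_of_neg h2]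
    rcases le_or_gt s (-(ε / 2)) with h3 | h3
    · rw [← hA.mm s h0 h3]
      push_cast
      ring
    · rw [rmp_zero ε (-s) hε (by linarith)]
      simp
  · rw [ic_out (-ε) 0 s (Or.inr h2), ic_in 0 ε s h2 h1, abs_of_nonneg h2]
    rcases le_or_gt (ε / 2) s with h3 | h3
    · rw [← hA.mp s h3 h1.le]
      push_cast
      ring
    · rw [rmp_zero ε s hε (by linarith)]
      simp

/-- the block element as a sum of block sums -/
theorem be_eq (θ δ1 δ2 ε : ℝ) {q1 q2 : ℕ} (M0 : ℝ → Matrix (Fin q1) (Fin q1) ℂ)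
    (M1 : ℝ → Matrix (Fin q2) (Fin q2) ℂ) (M2 : ℝ → Matrix (Fin (q1 + q2)) (Fin (q1 + q2)) ℂ) :
    be θ δ1 δ2 ε M0 M1 M2 = BS θ δ1 0 (ic ε (δ2 - ε)) M0 + BS θ δ1 0 (ic (-δ1 + ε) (-ε)) M1 +
      BS θ δ1 0 (ic (-ε) ε) M2 := by
  have key : ∀ (v : Fin 3) (a b : ℝ), bs δ1 δ2 ε v = Set.Ico a b → ∀ φ : ℝ → ℂ,
      chi (Yb δ1 δ2 ε v) * (⟨fun x => φ (rp δ1 x), continuous_of_discreteTopology⟩ :
        C(Dx X0, ℂ)) = hat δ1 (fun s => ((ic a b s : ℝ) : ℂ) * φ s) := by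
    intro v a b hv φ
    ext x
    show chi (Yb δ1 δ2 ε v) x * φ (rp δ1 x) = ((ic a b (rp δ1 x) : ℝ) : ℂ) * φ (rp δ1 x)
    congr 1
    rw [chi_apply (isClopen_discrete _)]
    by_cases hx : rp δ1 x ∈ Set.Ico a b
    · have hx' : x ∈ Yb δ1 δ2 ε v := by
        show rp δ1 x ∈ bs δ1 δ2 ε v
        rw [hv]; exact hx
      rw [if_pos hx', ic_in a b _ hx.1 hx.2]
      simp
    · have hx' : ¬ x ∈ Yb δ1 δ2 ε v := by
        intro h
        have h' : rp δ1 x ∈ bs δ1 δ2 ε v := h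
        rw [hv] at h'
        exact hx h'
      rw [if_neg hx']
      unfold ic
      rw [if_neg hx]
      simp
  unfold be BB BS
  rw [Fin.sum_univ_three]
  congr 1
  · congr 1
    · refine Finset.sum_congr rfl fun i _ => Finset.sum_congr rfl fun k _ => ?_
      unfold TT
      rw [← key 0 ε (δ2 - ε) rfl (fun s => M0 s i k), zero_add]
      rfl
    · refine Finset.sum_congr rfl fun i _ => Finset.sum_congr rfl fun k _ => ?_
      unfold TT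
      rw [← key 1 (-δ1 + ε) (-ε) rfl (fun s => M1 s i k), zero_add]
      rfl
  · refine Finset.sum_congr rfl fun i _ => Finset.sum_congr rfl fun k _ => ?_
    unfold TT
    rw [← key 2 (-ε) ε rfl (fun s => M2 s i k), zero_add]
    rfl

theorem hADM : StAdm := by
  intro θ δ1 δ2 ε q1 q2 hR hε h4 h4' M0 M1 M2 hA
  obtain ⟨m1, hm1⟩ := hR.e1
  obtain ⟨m2, hm2⟩ := hR.e2
  have hδ1 := hR.pos1
  have hδ2 := hR.pos2
  have hlt := hR.lt
  have s1 : BS θ δ1 q1 (wp ε) (fun s => M1 (s - δ1)) =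
      BS θ δ1 0 (fun s => wp ε (s + δ1)) M1 := by
    unfold BS
    refine Finset.sum_congr rfl fun i _ => Finset.sum_congr rfl fun k _ => ?_
    rw [zero_add]
    refine TT_shift1 θ δ1 _ _ q1 m1 hm1 hδ1 (by linarith) _ _ ?_ ?_
    · intro z _ _
      simp only [add_sub_cancel_right]
    · intro z hz1 hz2
      have e1 : wp ε (z + δ1 - 1) = 0 := by
        unfold wp
        rw [ic_out 0 ε _ (Or.inl (by linarith)), zero_mul]
      have e2 : wp ε (z + δ1) = 0 := by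
        unfold wp
        rw [ic_out 0 ε _ (Or.inr (by linarith)), zero_mul]
      simp only [e1, e2]
      simp
  have s2 : BS θ δ1 q2 (wm' ε) (fun s => M0 (s + δ2)) =
      BS θ δ1 0 (fun s => wm' ε (s - δ2)) M0 := by
    unfold BS
    refine Finset.sum_congr rfl fun i _ => Finset.sum_congr rfl fun k _ => ?_
    rw [zero_add]
    refine TT_shift2 θ δ1 δ2 _ _ q2 m2 hm2 hδ1 hδ2 hlt _ _ ?_ ?_
    · intro z _ _
      simp only [sub_add_cancel]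
    · intro z hz1 hz2
      have e1 : wm' ε (z - δ2 + 1) = 0 := by
        unfold wm'
        rw [ic_out (-ε) 0 _ (Or.inr (by linarith)), zero_mul]
      have e2 : wm' ε (z - δ2) = 0 := by
        unfold wm'
        rw [ic_out (-ε) 0 _ (Or.inl (by linarith)), zero_mul]
      simp only [e1, e2]
      simp
  have hmid : BS θ δ1 0 (ic (-ε) ε) M2 = BS θ δ1 0 (chi0 ε) M2 +
      (BS θ δ1 0 (wp ε) M0 + BS θ δ1 0 (fun s => wp ε (s + δ1)) M1) +
      (BS θ δ1 0 (wm' ε) M1 + BS θ δ1 0 (fun s => wm' ε (s - δ2)) M0) := by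
    rw [← s1, ← s2, ← BS_bsm, ← BS_bsc]
    exact BS_add3 θ δ1 0 _ _ _ _ _ _ _ _ (mid q1 q2 δ1 δ2 ε hε M0 M1 M2 hA)
  have hbe : be θ δ1 δ2 ε M0 M1 M2 =
      BS θ δ1 0 (fun s => min (rmp ε s) (rmp ε (δ2 - s))) M0 +
      BS θ δ1 0 (fun s => min (rmp ε (-s)) (rmp ε (s + δ1))) M1 + BS θ δ1 0 (chi0 ε) M2 := by
    rw [be_eq, hmid]
    have a0 : (fun s => min (rmp ε s) (rmp ε (δ2 - s))) =
        fun s => ic ε (δ2 - ε) s + wp ε s + wm' ε (s - δ2) := by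
      funext s
      exact (A0_eq ε δ2 s hε h4').symm
    have a1 : (fun s => min (rmp ε (-s)) (rmp ε (s + δ1))) =
        fun s => ic (-δ1 + ε) (-ε) s + wm' ε s + wp ε (s + δ1) := by
      funext s
      exact (A1_eq ε δ1 s hε h4).symm
    rw [a0, a1, ← BS_add θ δ1 0 (fun s => ic ε (δ2 - ε) s + wp ε s) (fun s => wm' ε (s - δ2)) M0,
      ← BS_add θ δ1 0 (ic ε (δ2 - ε)) (wp ε) M0,
      ← BS_add θ δ1 0 (fun s => ic (-δ1 + ε) (-ε) s + wm' ε s) (fun s => wp ε (s + δ1)) M1,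
      ← BS_add θ δ1 0 (ic (-δ1 + ε) (-ε)) (wm' ε) M1]
    abel
  rw [hbe]
  refine Rg.add (Rg.add ?_ ?_) ?_
  · refine Rg_BS θ δ1 0 _ _ ?_ hA.c0 ?_ ?_
    · exact (rmp_cont ε).min ((rmp_cont ε).comp (by fun_prop))
    · show min (rmp ε (-δ1)) (rmp ε (δ2 - -δ1)) = 0
      rw [rmp_zero ε (-δ1) hε (by linarith), min_eq_left (rmp_nonneg _ _)]
    · show min (rmp ε (1 - δ1)) (rmp ε (δ2 - (1 - δ1))) = 0
      rw [rmp_zero ε (δ2 - (1 - δ1)) hε (by linarith), min_eq_right (rmp_nonneg _ _)]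
  · refine Rg_BS θ δ1 0 _ _ ?_ hA.c1 ?_ ?_
    · exact ((rmp_cont ε).comp continuous_neg).min ((rmp_cont ε).comp (by fun_prop))
    · show min (rmp ε (- -δ1)) (rmp ε (-δ1 + δ1)) = 0
      rw [rmp_zero ε (-δ1 + δ1) hε (by linarith), min_eq_right (rmp_nonneg _ _)]
    · show min (rmp ε (-(1 - δ1))) (rmp ε (1 - δ1 + δ1)) = 0
      rw [rmp_zero ε (-(1 - δ1)) hε (by linarith), min_eq_left (rmp_nonneg _ _)]
  · refine Rg_BS θ δ1 0 _ _ ?_ hA.c2 ?_ ?_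
    · unfold chi0
      exact continuous_const.sub ((rmp_cont ε).comp continuous_abs)
    · unfold chi0
      rw [rmp_one ε |-δ1| hε (by rw [abs_neg, abs_of_pos hδ1]; linarith)]
      ring
    · unfold chi0
      rw [rmp_one ε |1 - δ1| hε (by rw [abs_of_pos (by linarith)]; linarith)]
      ring

end Pool.Agent.Helper12.KR
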